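import Pool.Agent.Helper41.Cluster4.Goals

/-!
MP_c45da2_co, packet LO: the code does not span.
-/

namespace Pool.Agent.Helper62.Cluster4

open Module Pool.Agent.Helper65.Delone Pool.Agent.Helper41.Cluster4
open scoped RealInnerProductSpace

variable {E : Type*} [NormedAddCommGroup E] [InnerProductSpace ℝ E]

omit [NormedAddCommGroup E] [InnerProductSpace ℝ E] in
theorem pair_le (a b : E) : ({a, b} : Set E).ncard ≤ 2 := by
  have h := Set.ncard_insert_le a ({b} : Set E)
  rw [Set.ncard_singleton] at h
  exact h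

theorem finite_stb (G : Subgroup (E ≃ₗᵢ[ℝ] E)) [Finite G] (y : E) : Finite (stb G y) :=
  Finite.of_injective (fun A : stb G y => (⟨A.1, A.2.1⟩ : G)) (by
    intro A B hAB
    apply Subtype.ext
    exact congrArg (fun z : G => (z : E ≃ₗᵢ[ℝ] E)) hAB)

theorem finite_rt (G : Subgroup (E ≃ₗᵢ[ℝ] E)) [Finite G] : Finite (rt G) :=
  Finite.of_injective (fun A : rt G => (⟨A.1, A.2.1⟩ : G)) (by
    intro A B hAB
    apply Subtype.ext
    exact congrArg (fun z : G => (z : E ≃ₗᵢ[ℝ] E)) hAB)

/-- orbit-stabilizer inequality -/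
theorem card_le (G : Subgroup (E ≃ₗᵢ[ℝ] E)) [Finite G] (y : E) (S : Set E) (hS : S.Finite)
    (h : ∀ A ∈ G, A y ∈ S) : Nat.card G ≤ S.ncard * Nat.card (stb G y) := by
  classical
  have := Fintype.ofFinite G
  have := finite_stb G y
  have key := Finset.card_le_mul_card_image_of_maps_to
    (f := fun A : G => (A : E ≃ₗᵢ[ℝ] E) y) (s := Finset.univ) (t := hS.toFinset)
    (by
      intro A _
      rw [Set.Finite.mem_toFinset]
      exact h A A.2) (Nat.card (stb G y)) (by
    intro b _
    by_cases hne : ∃ A0 : G, (A0 : E ≃ₗᵢ[ℝ] E) y = b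
    · obtain ⟨A0, hA0⟩ := hne
      have h1 : (Finset.univ.filter (fun A : G => (A : E ≃ₗᵢ[ℝ] E) y = b)).card =
          Nat.card {A : G // (A : E ≃ₗᵢ[ℝ] E) y = b} := by
        rw [Nat.card_eq_fintype_card, Fintype.card_subtype]
      rw [h1]
      refine Nat.card_le_card_of_injective (fun A : {A : G // (A : E ≃ₗᵢ[ℝ] E) y = b} =>
        (⟨(A0 : E ≃ₗᵢ[ℝ] E)⁻¹ * (A.1 : E ≃ₗᵢ[ℝ] E), G.mul_mem (G.inv_mem A0.2) A.1.2, ?_⟩ :
          stb G y)) ?_
      · change (A0 : E ≃ₗᵢ[ℝ] E).symm ((A.1 : E ≃ₗᵢ[ℝ] E) y) = y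
        rw [A.2, ← hA0]
        exact (A0 : E ≃ₗᵢ[ℝ] E).symm_apply_apply y
      · intro A B hAB
        have h2 := congrArg Subtype.val hAB
        have h3 := mul_left_cancel h2
        exact Subtype.ext (Subtype.ext h3)
    · rw [Finset.card_eq_zero.2]
      · exact Nat.zero_le _
      · rw [Finset.filter_eq_empty_iff]
        intro A _ hA
        exact hne ⟨A, hA⟩)
  rw [Finset.card_univ, ← Nat.card_eq_fintype_card] at key
  rw [Set.ncard_eq_toFinset_card S hS, Nat.mul_comm]
  exact key

theorem cos7 : 1 / 2 < Real.cos (2 * Real.pi / (7 : ℕ)) := by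
  rw [← Real.cos_pi_div_three]
  have := Real.pi_pos
  refine Real.cos_lt_cos_of_nonneg_of_le_pi (by positivity) (by linarith) ?_
  rw [div_lt_div_iff₀ (by norm_num) (by norm_num)]
  push_cast
  linarith

theorem six (hC : Circle4 E) (P : Submodule ℝ E) (hP : finrank ℝ P = 2) (ρ : ℝ) (hρ : 0 < ρ)
    (s : Finset E) (hs : ∀ v ∈ s, v ∈ P ∧ ‖v‖ = ρ)
    (hsep : ∀ v ∈ s, ∀ w ∈ s, v ≠ w → ⟪v, w⟫ ≤ ρ ^ 2 / 2) : s.card ≤ 6 := by
  by_contra hcon
  push Not at hcon
  obtain ⟨v, hv, w, hw, hvw, h1⟩ := hC P hP ρ s 7 hs (by norm_num) hcon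
  have h2 := hsep v hv w hw hvw
  have h3 := cos7
  have h4 : 0 < ρ ^ 2 := by positivity
  nlinarith

theorem one_dim (F : Submodule ℝ E) (hF : finrank ℝ F = 1) {f w : E} (hf : f ∈ F) (hf0 : f ≠ 0)
    (hw : w ∈ F) (hn : ‖w‖ = ‖f‖) : w = f ∨ w = -f := by
  have h1 := (finrank_eq_one_iff_of_nonzero' (⟨f, hf⟩ : F) (by
    intro h
    exact hf0 (congrArg Subtype.val h))).1 hF ⟨w, hw⟩
  obtain ⟨c, hc⟩ := h1
  have hc' : c • f = w := congrArg Subtype.val hc
  have h2 : |c| = 1 := by
    rw [← hc', norm_smul, Real.norm_eq_abs] at hn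
    have : ‖f‖ ≠ 0 := norm_ne_zero_iff.2 hf0
    exact mul_right_cancel₀ this (by rw [hn, one_mul])
  rcases (abs_eq zero_le_one).1 h2 with h | h
  · left; rw [← hc', h, one_smul]
  · right; rw [← hc', h, neg_one_smul]

theorem low (hF : FixFacts E) (hC : Circle4 E) (hR : RotPlane E) (hB : HalfBall E)
    (hG : PoleGeom E) : Low E := by
  classical
  intro h4 G N hfin hN hInv hne hsm hspan
  have hfd : FiniteDimensional ℝ E := FiniteDimensional.of_finrank_pos (by omega)
  obtain ⟨V, hV⟩ : ∃ V, V = Submodule.span ℝ N := ⟨_, rfl⟩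
  have hNV : ∀ v ∈ N, v ∈ V := fun v hv => by rw [hV]; exact Submodule.subset_span hv
  have hVG : ∀ A ∈ G, ∀ v ∈ V, A v ∈ V := by
    intro A hA v hv
    have h1 : V ≤ V.comap (A.toLinearEquiv : E →ₗ[ℝ] E) := by
      conv_lhs => rw [hV]
      exact Submodule.span_le.2 (fun x hx => hNV _ (hInv A hA x hx))
    exact h1 hv
  have hVfin : finrank ℝ V < 4 := by
    rw [← h4]
    exact Submodule.finrank_lt (by rw [hV]; exact hspan)
  obtain ⟨y, hy⟩ := hne
  have hy1 := hN.norm y hy
  have hy0 : y ≠ 0 := by
    rintro rfl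
    rw [norm_zero] at hy1
    exact zero_ne_one hy1
  have hyy : ⟪y, y⟫ = 1 := by rw [real_inner_self_eq_norm_sq, hy1]; norm_num
  have hyV : y ∈ V := hNV y hy
  have hyspan : finrank ℝ (Submodule.span ℝ {y}) = 1 := finrank_span_singleton hy0
  have hyle : Submodule.span ℝ {y} ≤ V := by
    rw [Submodule.span_singleton_le_iff_mem]; exact hyV
  have hVpos : 1 ≤ finrank ℝ V := by
    rw [← hyspan]
    exact Submodule.finrank_mono hyle
  obtain ⟨H, hH⟩ : ∃ H, H = stb G y := ⟨_, rfl⟩
  have hHfin : Finite H := by rw [hH]; exact finite_stb G y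
  have hHG : ∀ A ∈ H, A ∈ G ∧ A y = y := by
    intro A hA
    rw [hH] at hA
    exact hA
  have hGN : Nat.card G ≤ N.ncard * Nat.card H := by
    rw [hH]
    exact card_le G y N hN.fin (fun A hA => hInv A hA y hy)
  by_cases hV1 : finrank ℝ V = 1
  · -- dimension one
    have hN2 : N.ncard ≤ 2 := by
      have h1 : N ⊆ {y, -y} := by
        intro v hv
        rcases one_dim V hV1 hyV hy0 (hNV v hv) (by rw [hN.norm v hv, hy1]) with h | h
        · left; exact h
        · right; exact h
      exact (Set.ncard_le_ncard h1 (Set.toFinite _)).trans (pair_le _ _)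
    obtain ⟨Γ, hΓ⟩ : ∃ Γ, Γ = rt H := ⟨_, rfl⟩
    have hΓfin : Finite Γ := by rw [hΓ]; exact finite_rt H
    have hΓH : ∀ A ∈ Γ, A ∈ H ∧ Rot A := by
      intro A hA
      rw [hΓ] at hA
      exact hA
    have h94 : Nat.card Γ ≤ 94 := by
      refine (hG h4 Γ y hΓfin hy1 (fun A hA => ⟨(hΓH A hA).2, (hHG A (hΓH A hA).1).2⟩)).1 ?_
      intro u hu huy
      have hli : LinearIndependent ℝ ![y, u] := by
        rw [LinearIndependent.pair_iff]
        intro s t hst
        have hs : s = 0 := by
          have := congrArg (fun z => ⟪z, y⟫) hst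
          simp only [inner_add_left, inner_smul_left, inner_zero_left, hyy, huy,
            conj_trivial, mul_one, mul_zero, add_zero] at this
          exact this
        refine ⟨hs, ?_⟩
        rw [hs, zero_smul, zero_add] at hst
        rcases smul_eq_zero.1 hst with h | h
        · exact h
        · rw [h, norm_zero] at hu
          exact absurd hu zero_ne_one
      have hP2 : finrank ℝ (Submodule.span ℝ (Set.range ![y, u])) = 2 := by
        rw [finrank_span_eq_card hli, Fintype.card_fin]
      have hfs := finite_stb Γ u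
      refine (hR h4 (stb Γ u) (Submodule.span ℝ (Set.range ![y, u])) hfs hP2 ?_ ?_).1 ?_
      · intro A hA v hv
        have h1 : Submodule.span ℝ (Set.range ![y, u]) ≤ fixSpace A := by
          rw [Submodule.span_le]
          rintro _ ⟨i, rfl⟩
          fin_cases i
          · exact (hHG A (hΓH A hA.1).1).2
          · exact hA.2
        exact h1 hv
      · intro A hA
        exact (hΓH A hA.1).2
      · intro A hA hA1
        exact hsm A (hHG A (hΓH A hA.1).1).1 hA1
    have h188 : Nat.card H ≤ 188 := by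
      rcases (hF h4).2.2 H hHfin with h | h
      · rw [h, ← hΓ]; omega
      · rw [h, ← hΓ]; omega
    nlinarith
  -- a second vector
  obtain ⟨u, huN, hu⟩ : ∃ u ∈ N, u ∉ Submodule.span ℝ {y} := by
    by_contra hcon
    push Not at hcon
    have h1 : V ≤ Submodule.span ℝ {y} := by
      rw [hV]
      exact Submodule.span_le.2 hcon
    have h2 := Submodule.finrank_mono h1
    omega
  have hu1 := hN.norm u huN
  have huV : u ∈ V := hNV u huN
  obtain ⟨t, ht⟩ : ∃ t, t = ⟪u, y⟫ := ⟨_, rfl⟩
  let S : Set E := {u' | u' ∈ N ∧ ⟪u', y⟫ = t}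
  have hSfin : S.Finite := hN.fin.subset (fun v hv => hv.1)
  obtain ⟨P, hP⟩ : ∃ P, P = (Submodule.span ℝ {y})ᗮ ⊓ V := ⟨_, rfl⟩
  have hvP : ∀ v ∈ S, v - t • y ∈ P := by
    intro v hv
    rw [hP]
    refine ⟨?_, V.sub_mem (hNV v hv.1) (V.smul_mem _ hyV)⟩
    rw [SetLike.mem_coe, Submodule.mem_orthogonal_singleton_iff_inner_left, inner_sub_left, hv.2,
      inner_smul_left, hyy]
    simp
  have hnorm : ∀ v ∈ S, ‖v - t • y‖ ^ 2 = 1 - t ^ 2 := by
    intro v hv
    rw [norm_sub_sq_real, norm_smul, inner_smul_right, hv.2, hN.norm v hv.1, hy1,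
      Real.norm_eq_abs, mul_one, sq_abs]
    ring
  have huS : u ∈ S := ⟨huN, ht.symm⟩
  have hw0 : u - t • y ≠ 0 := by
    intro h
    apply hu
    rw [sub_eq_zero] at h
    rw [h]
    exact Submodule.smul_mem _ _ (Submodule.mem_span_singleton_self y)
  have hρ : 0 < 1 - t ^ 2 := by
    rw [← hnorm u huS]
    have := norm_pos_iff.2 hw0
    positivity
  have hli : LinearIndependent ℝ ![y, u] := by
    rw [LinearIndependent.pair_iff' hy0]
    intro a ha
    exact hu (Submodule.mem_span_singleton.2 ⟨a, ha⟩)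
  obtain ⟨Q, hQ⟩ : ∃ Q, Q = Submodule.span ℝ (Set.range ![y, u]) := ⟨_, rfl⟩
  have hQ2 : finrank ℝ Q = 2 := by
    rw [hQ, finrank_span_eq_card hli, Fintype.card_fin]
  have hQV : Q ≤ V := by
    rw [hQ, Submodule.span_le]
    rintro _ ⟨i, rfl⟩
    fin_cases i
    · exact hyV
    · exact huV
  have hyQ : y ∈ Q := by rw [hQ]; exact Submodule.subset_span ⟨0, rfl⟩
  have huQ : u ∈ Q := by rw [hQ]; exact Submodule.subset_span ⟨1, rfl⟩
  obtain ⟨K, hK⟩ : ∃ K, K = stb H u := ⟨_, rfl⟩
  have hKfin : Finite K := by rw [hK]; exact finite_stb H u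
  have hKH : ∀ A ∈ K, A ∈ H ∧ A u = u := by
    intro A hA
    rw [hK] at hA
    exact hA
  have hHS : Nat.card H ≤ S.ncard * Nat.card K := by
    rw [hK]
    refine card_le H u S hSfin (fun A hA => ⟨hInv A (hHG A hA).1 u huN, ?_⟩)
    conv_lhs => rw [← (hHG A hA).2]
    rw [A.inner_map_map, ht]
  have hKQ : ∀ A ∈ K, ∀ v ∈ Q, A v = v := by
    intro A hA v hv
    have h1 : Q ≤ fixSpace A := by
      rw [hQ, Submodule.span_le]
      rintro _ ⟨i, rfl⟩
      fin_cases i
      · exact (hHG A (hKH A hA).1).2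
      · exact (hKH A hA).2
    exact h1 hv
  have hcase : finrank ℝ V = 2 ∨ finrank ℝ V = 3 := by omega
  rcases hcase with hV2 | hV3
  · -- dimension two
    have hP1 : finrank ℝ P = 1 := by
      rw [hP]
      exact Submodule.finrank_add_inf_finrank_orthogonal' hyle (by omega)
    have hN6 : N.ncard ≤ 6 := by
      rw [Set.ncard_eq_toFinset_card N hN.fin]
      refine six hC V hV2 1 one_pos _ ?_ ?_
      · intro v hv
        rw [Set.Finite.mem_toFinset] at hv
        exact ⟨hNV v hv, hN.norm v hv⟩
      · intro v hv w hw hvw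
        rw [Set.Finite.mem_toFinset] at hv hw
        have := hN.sep v hv w hw hvw
        linarith
    have hS2 : S.ncard ≤ 2 := by
      have h1 : S ⊆ {t • y + (u - t • y), t • y + -(u - t • y)} := by
        intro v hv
        have h2 : ‖v - t • y‖ = ‖u - t • y‖ := by
          have h3 := hnorm v hv
          rw [← hnorm u huS] at h3
          exact (sq_eq_sq₀ (norm_nonneg _) (norm_nonneg _)).1 h3
        rcases one_dim P hP1 (hvP u huS) hw0 (hvP v hv) h2 with h | h
        · left
          rw [← h]; abel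
        · right
          rw [Set.mem_singleton_iff, ← h]; abel
      exact (Set.ncard_le_ncard h1 (Set.toFinite _)).trans (pair_le _ _)
    have hK94 : Nat.card K ≤ 94 := by
      have h47 : Nat.card (rt K) ≤ 47 := by
        have hfr := finite_rt K
        refine (hR h4 (rt K) Q hfr hQ2 ?_ ?_).1 ?_
        · intro A hA v hv
          exact hKQ A hA.1 v hv
        · intro A hA
          exact hA.2
        · intro A hA hA1
          exact hsm A (hHG A (hKH A hA.1).1).1 hA1
      rcases (hF h4).2.2 K hKfin with h | h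
      · rw [h]; omega
      · rw [h]; omega
    have h188 : Nat.card H ≤ 188 := by nlinarith
    nlinarith
  · -- dimension three
    have hP2 : finrank ℝ P = 2 := by
      rw [hP]
      exact Submodule.finrank_add_inf_finrank_orthogonal' hyle (by omega)
    have hN48 : N.ncard ≤ 48 := hB h4 N hN
    have hS6 : S.ncard ≤ 6 := by
      rw [Set.ncard_eq_toFinset_card S hSfin]
      have hinj : Function.Injective (fun v : E => v - t • y) := fun a b h => by
        simpa using h
      rw [← Finset.card_image_of_injective hSfin.toFinset hinj]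
      refine six hC P hP2 (Real.sqrt (1 - t ^ 2)) (Real.sqrt_pos.2 hρ) _ ?_ ?_
      · intro v hv
        rw [Finset.mem_image] at hv
        obtain ⟨v, hv, rfl⟩ := hv
        rw [Set.Finite.mem_toFinset] at hv
        refine ⟨hvP v hv, ?_⟩
        rw [← hnorm v hv, Real.sqrt_sq (norm_nonneg _)]
      · intro v hv w hw hvw
        rw [Finset.mem_image] at hv hw
        obtain ⟨v, hv, rfl⟩ := hv
        obtain ⟨w, hw, rfl⟩ := hw
        rw [Set.Finite.mem_toFinset] at hv hw
        have hne' : v ≠ w := by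
          rintro rfl
          exact hvw rfl
        have h1 := hN.sep v hv.1 w hw.1 hne'
        have h2 : ⟪v - t • y, w - t • y⟫ = ⟪v, w⟫ - t ^ 2 := by
          rw [inner_sub_left, inner_sub_right, inner_sub_right, inner_smul_right,
            inner_smul_left, inner_smul_left, inner_smul_right, hv.2, hyy,
            real_inner_comm w y, hw.2]
          simp only [conj_trivial]
          ring
        rw [h2, Real.sq_sqrt hρ.le]
        nlinarith [sq_nonneg t]
    -- the fourth direction
    obtain ⟨F, hFdef⟩ : ∃ F, F = Qᗮ ⊓ V := ⟨_, rfl⟩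
    have hF1 : finrank ℝ F = 1 := by
      rw [hFdef]
      exact Submodule.finrank_add_inf_finrank_orthogonal' hQV (by omega)
    have hO1 : finrank ℝ (Vᗮ : Submodule ℝ E) = 1 := by
      have := Submodule.finrank_add_finrank_orthogonal V
      omega
    have hex : ∀ W : Submodule ℝ E, finrank ℝ W = 1 → ∃ f ∈ W, f ≠ 0 := by
      intro W hW
      have : Nontrivial W := Module.nontrivial_of_finrank_pos (R := ℝ) (by omega)
      obtain ⟨f, hf⟩ := exists_ne (0 : W)
      exact ⟨f, f.2, fun h => hf (Subtype.ext h)⟩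
    obtain ⟨f, hfF, hf0⟩ := hex F hF1
    obtain ⟨g, hgO, hg0⟩ := hex _ hO1
    have hK4 : Nat.card K ≤ 4 := by
      have hfin1 := finite_stb K f
      have h1 : Nat.card K ≤ ({f, -f} : Set E).ncard * Nat.card (stb K f) := by
        refine card_le K f _ (Set.toFinite _) (fun A hA => ?_)
        have hAf : A f ∈ F := by
          rw [hFdef] at hfF ⊢
          refine ⟨?_, hVG A (hHG A (hKH A hA).1).1 f hfF.2⟩
          rw [SetLike.mem_coe, Submodule.mem_orthogonal]
          intro v hv
          rw [← hKQ A hA v hv, A.inner_map_map]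
          exact (Submodule.mem_orthogonal _ _).1 hfF.1 v hv
        rcases one_dim F hF1 hfF hf0 hAf (A.norm_map f) with h | h
        · left; exact h
        · right; exact h
      have h2 : Nat.card (stb K f) ≤ ({g, -g} : Set E).ncard * Nat.card (stb (stb K f) g) := by
        refine card_le (stb K f) g _ (Set.toFinite _) (fun A hA => ?_)
        have hAG := (hHG A (hKH A hA.1).1).1
        have hAg : A g ∈ (Vᗮ : Submodule ℝ E) := by
          rw [Submodule.mem_orthogonal]
          intro v hv
          have h3 : v = A (A.symm v) := (A.apply_symm_apply v).symm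
          rw [h3, A.inner_map_map]
          exact (Submodule.mem_orthogonal _ _).1 hgO _ (hVG A⁻¹ (G.inv_mem hAG) v hv)
        rcases one_dim _ hO1 hgO hg0 hAg (A.norm_map g) with h | h
        · left; exact h
        · right; exact h
      have h3 : Nat.card (stb (stb K f) g) = 1 := by
        have : Subsingleton (stb (stb K f) g) := by
          have h4 : ∀ A ∈ stb (stb K f) g, A = 1 := by
            intro A hA
            have hfix : fixSpace A = ⊤ := by
              rw [eq_top_iff, ← Submodule.sup_orthogonal_of_hasOrthogonalProjection (K := V)]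
              have hQA : Q ≤ fixSpace A := fun v hv => hKQ A hA.1.1 v hv
              have hspan1 : ∀ (W : Submodule ℝ E) (w : E), finrank ℝ W = 1 → w ∈ W → w ≠ 0 →
                  A w = w → W ≤ fixSpace A := by
                intro W w hW hw hw0 hAw v hv
                obtain ⟨c, hc⟩ := (finrank_eq_one_iff_of_nonzero' (⟨w, hw⟩ : W) (by
                  intro h
                  exact hw0 (congrArg Subtype.val h))).1 hW ⟨v, hv⟩
                have hc' : c • w = v := congrArg Subtype.val hc
                rw [← hc']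
                exact (fixSpace A).smul_mem c hAw
              have hVA : V ≤ fixSpace A := by
                rw [← Submodule.sup_orthogonal_inf_of_hasOrthogonalProjection hQV, ← hFdef]
                exact sup_le hQA (hspan1 F f hF1 hfF hf0 hA.1.2)
              exact sup_le hVA (hspan1 _ g hO1 hgO hg0 hA.2)
            ext v
            have : v ∈ fixSpace A := by rw [hfix]; trivial
            exact this
          exact ⟨fun A B => Subtype.ext ((h4 A A.2).trans (h4 B B.2).symm)⟩
        exact Nat.card_of_subsingleton (1 : stb (stb K f) g)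
      have h5 := pair_le f (-f)
      have h6 := pair_le g (-g)
      rw [h3, mul_one] at h2
      nlinarith
    have h24 : Nat.card H ≤ 24 := by nlinarith
    nlinarith

end Pool.Agent.Helper62.Cluster4
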